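import Pool.Agent.helper17.EXC.Spec

set_option autoImplicit false

open Finset

namespace Pool.Agent.EXC

section
variable {n : ℕ} (C : Matrix (Fin n) (Fin n) ℤ) [IsC C] {F : Type} [Field F]

/-- `E (α + β) = 0` if `(α, β) ≠ -1` -/
theorem INV_E0 {α β : Fin n → ℤ} (hα : ip C α α = 2) (hβ : ip C β β = 2) (h : ip C α β ≠ -1) :
    (E C (α + β) : Lm C F) = 0 :=
  E_eq_zero C fun h2 => h ((add_root_iff hα hβ).1 h2)

/-- the bracket vanishes if `(α, β) ≥ 0` -/
theorem INV_br0 {α β : Fin n → ℤ} (hα : ip C α α = 2) (hβ : ip C β β = 2) (h : 0 ≤ ip C α β) :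
    br C (E C α) (E C β) = (0 : Lm C F) := by
  rw [br_E_E C hα hβ, INV_E0 C hα hβ (by omega), smul_zero, if_neg, sub_zero]
  rintro rfl
  rw [ip_neg_right, hα] at h
  omega

theorem INV_E00 {α : Fin n → ℤ} (hα : ip C α α = 2) : (E C (α + -α) : Lm C F) = 0 :=
  INV_E0 C hα (neg_root C hα) (by rw [ip_neg_right, hα]; norm_num)

theorem INV_aa {α : Fin n → ℤ} (hα : ip C α α = 2) : br C (E C α) (E C α) = (0 : Lm C F) :=
  INV_br0 C hα hα (by omega)

theorem INV_fHH (α : Fin n → ℤ) (h : Fin n → F) : fm C (ht C α : Lm C F) ((h, 0) : Lm C F) = -ev C α h := by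
  unfold ht
  rw [fm_H_H]
  rfl

theorem INV_fHH' (α : Fin n → ℤ) (h : Fin n → F) : fm C ((h, 0) : Lm C F) (ht C α : Lm C F) = -ev C α h := by
  unfold ht
  rw [fm_H_H, ev, Finset.sum_comm]
  congr 1
  refine Finset.sum_congr rfl fun i _ => Finset.sum_congr rfl fun j _ => ?_
  rw [IsC.symm (C := C) i j]
  ring

theorem INV_fHE (α β : Fin n → ℤ) : fm C (ht C α : Lm C F) (E C β) = 0 := by
  unfold ht
  rw [fm_H_E]

theorem INV_fEH {α : Fin n → ℤ} (hα : ip C α α = 2) (β : Fin n → ℤ) : fm C (E C α : Lm C F) (ht C β) = 0 := by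
  unfold ht
  rw [fm_E_H C hα]

/-! symmetry of the form -/

theorem INV_symm (v w : Lm C F) : fm C v w = fm C w v := by
  revert w
  refine Lm_ind C (P := fun v => ∀ w : Lm C F, fm C v w = fm C w v) ?_ ?_ ?_ ?_ v
  · intro x y hx hy w
    rw [fm_add_left, fm_add_right, hx, hy]
  · intro c x hx w
    rw [fm_smul_left, fm_smul_right, hx]
  · intro α hα w
    refine Lm_ind C (P := fun w => fm C (E C α : Lm C F) w = fm C w (E C α)) ?_ ?_ ?_ ?_ w
    · intro x y hx hy
      rw [fm_add_left, fm_add_right, hx, hy]
    · intro c x hx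
      rw [fm_smul_left, fm_smul_right, hx]
    · intro β hβ
      rw [fm_E_E C hα hβ, fm_E_E C hβ hα]
      by_cases h : β = -α
      · rw [if_pos h, if_pos (by rw [h, neg_neg])]
      · rw [if_neg h, if_neg (fun e => h (by rw [e, neg_neg]))]
    · intro h
      rw [fm_E_H C hα, fm_H_E]
  · intro h w
    refine Lm_ind C (P := fun w => fm C ((h, 0) : Lm C F) w = fm C w ((h, 0) : Lm C F)) ?_ ?_ ?_ ?_ w
    · intro x y hx hy
      rw [fm_add_left, fm_add_right, hx, hy]
    · intro c x hx
      rw [fm_smul_left, fm_smul_right, hx]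
    · intro β hβ
      rw [fm_E_H C hβ, fm_H_E]
    · intro h'
      rw [fm_H_H, fm_H_H, Finset.sum_comm]
      congr 1
      refine Finset.sum_congr rfl fun i _ => Finset.sum_congr rfl fun j _ => ?_
      rw [IsC.symm (C := C) i j]
      ring

/-! antisymmetry of the bracket -/

theorem INV_anti (v w : Lm C F) : br C v w = -br C w v := by
  revert w
  refine Lm_ind C (P := fun v => ∀ w : Lm C F, br C v w = -br C w v) ?_ ?_ ?_ ?_ v
  · intro x y hx hy w
    rw [br_add_left, br_add_right, hx, hy, neg_add]
  · intro c x hx w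
    rw [br_smul_left, br_smul_right, hx, smul_neg]
  · intro α hα w
    refine Lm_ind C (P := fun w => br C (E C α : Lm C F) w = -br C w (E C α)) ?_ ?_ ?_ ?_ w
    · intro x y hx hy
      rw [br_add_left, br_add_right, hx, hy, neg_add]
    · intro c x hx
      rw [br_smul_left, br_smul_right, hx, smul_neg]
    · intro β hβ
      rw [br_E_E C hα hβ, br_E_E C hβ hα]
      by_cases h : β = -α
      · subst h
        rw [if_pos rfl, if_pos (neg_neg α).symm, INV_E00 C hα, add_comm (-α) α, INV_E00 C hα, ht_neg]
        simp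
      · rw [if_neg h, if_neg (fun e => h (by rw [e, neg_neg])), sub_zero, sub_zero, add_comm β α]
        by_cases h1 : ip C α β = -1
        · rw [sg_comm_odd C α β (by rw [h1]; decide)]
          push_cast
          rw [neg_smul, neg_neg]
        · rw [INV_E0 C hα hβ h1]
          simp
    · intro h
      rw [br_E_H C hα, br_H_E C hα, neg_smul]
  · intro h w
    refine Lm_ind C (P := fun w => br C ((h, 0) : Lm C F) w = -br C w ((h, 0) : Lm C F)) ?_ ?_ ?_ ?_ w
    · intro x y hx hy
      rw [br_add_left, br_add_right, hx, hy, neg_add]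
    · intro c x hx
      rw [br_smul_left, br_smul_right, hx, smul_neg]
    · intro β hβ
      rw [br_E_H C hβ, br_H_E C hβ, neg_smul, neg_neg]
    · intro h'
      rw [br_H_H, br_H_H, neg_zero]

/-! invariance -/

theorem INV_inv {α : Fin n → ℤ} (hα : ip C α α = 2) (v w : Lm C F) :
    fm C (br C (E C α) v) w = -fm C v (br C (E C α) w) := by
  revert w
  refine Lm_ind C (P := fun v => ∀ w : Lm C F, fm C (br C (E C α) v) w = -fm C v (br C (E C α) w)) ?_ ?_ ?_ ?_ v
  · intro x y hx hy w
    rw [br_add_right, fm_add_left, fm_add_left, hx, hy, neg_add]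
  · intro c x hx w
    rw [br_smul_right, fm_smul_left, fm_smul_left, hx, mul_neg]
  · intro β hβ w
    refine Lm_ind C (P := fun w => fm C (br C (E C α) (E C β)) w = -fm C (E C β : Lm C F) (br C (E C α) w)) ?_ ?_ ?_ ?_ w
    · intro x y hx hy
      rw [br_add_right, fm_add_right, fm_add_right, hx, hy, neg_add]
    · intro c x hx
      rw [br_smul_right, fm_smul_right, fm_smul_right, hx, mul_neg]
    · intro γ hγ
      rw [br_E_E C hα hβ, br_E_E C hα hγ, sub_eq_add_neg, sub_eq_add_neg, fm_add_left, fm_add_right, fm_neg_left,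
        fm_neg_right, fm_smul_left, fm_smul_right]
      have e1 : fm C (if β = -α then ht C α else 0 : Lm C F) (E C γ) = 0 := by
        split_ifs
        · exact INV_fHE C α γ
        · exact fm_zero_left C _
      have e2 : fm C (E C β : Lm C F) (if γ = -α then ht C α else 0) = 0 := by
        split_ifs
        · exact INV_fEH C hβ α
        · exact fm_zero_right C _
      rw [e1, e2, neg_zero, add_zero, add_zero]
      by_cases h : γ = -(α + β)
      · have hab : ip C (α + β) (α + β) = 2 := by
          have := neg_root C hγ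
          rw [h, neg_neg] at this
          exact this
        have hag : α + γ = -β := by rw [h]; abel
        have hag2 : ip C (α + γ) (α + γ) = 2 := by rw [hag]; exact neg_root C hβ
        rw [fm_E_E C hab hγ, if_pos h, fm_E_E C hβ hag2, if_pos hag, h, sg_neg_right, sg_add_right, sg_self C hα]
        push_cast
        ring
      · have e3 : fm C (E C (α + β) : Lm C F) (E C γ) = 0 := by
          by_cases hab : ip C (α + β) (α + β) = 2
          · rw [fm_E_E C hab hγ, if_neg h]
          · rw [E_eq_zero C hab, fm_zero_left]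
        have e4 : fm C (E C β : Lm C F) (E C (α + γ)) = 0 := by
          by_cases hag : ip C (α + γ) (α + γ) = 2
          · rw [fm_E_E C hβ hag, if_neg]
            intro e
            apply h
            rw [← neg_neg β, ← e]
            abel
          · rw [E_eq_zero C hag, fm_zero_right]
        rw [e3, e4]
        simp
    · intro h
      rw [br_E_E C hα hβ, br_E_H C hα, sub_eq_add_neg, fm_add_left, fm_neg_left, fm_smul_left, fm_smul_right, fm_E_E C hβ hα]
      have e0 : fm C (E C (α + β) : Lm C F) ((h, 0) : Lm C F) = 0 := by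
        by_cases hab : ip C (α + β) (α + β) = 2
        · rw [fm_E_H C hab]
        · rw [E_eq_zero C hab, fm_zero_left]
      rw [e0, mul_zero, zero_add]
      by_cases h1 : β = -α
      · rw [if_pos h1, if_pos (by rw [h1, neg_neg]), INV_fHH]
        ring
      · rw [if_neg h1, if_neg (fun e => h1 (by rw [e, neg_neg])), fm_zero_left]
        ring
  · intro h w
    refine Lm_ind C (P := fun w => fm C (br C (E C α) ((h, 0) : Lm C F)) w = -fm C ((h, 0) : Lm C F) (br C (E C α) w)) ?_ ?_ ?_ ?_ w
    · intro x y hx hy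
      rw [br_add_right, fm_add_right, fm_add_right, hx, hy, neg_add]
    · intro c x hx
      rw [br_smul_right, fm_smul_right, fm_smul_right, hx, mul_neg]
    · intro γ hγ
      rw [br_E_E C hα hγ, br_E_H C hα, sub_eq_add_neg, fm_add_right, fm_neg_right, fm_smul_left, fm_smul_right, fm_H_E,
        fm_E_E C hα hγ, mul_zero, zero_add]
      by_cases h1 : γ = -α
      · rw [if_pos h1, if_pos h1, INV_fHH']
        ring
      · rw [if_neg h1, if_neg h1, fm_zero_right]
        ring
    · intro h'
      rw [br_E_H C hα, br_E_H C hα, fm_smul_left, fm_smul_right, fm_E_H C hα, fm_H_E]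
      ring

/-! the square -/

theorem INV_sq {α : Fin n → ℤ} (hα : ip C α α = 2) (v : Lm C F) :
    br C (E C α) (br C (E C α) v) = (2 * fm C (E C α) v) • E C α := by
  refine Lm_ind C (P := fun v => br C (E C α) (br C (E C α) v) = (2 * fm C (E C α) v) • (E C α : Lm C F)) ?_ ?_ ?_ ?_ v
  · intro x y hx hy
    rw [br_add_right, br_add_right, hx, hy, fm_add_right, mul_add, add_smul]
  · intro c x hx
    rw [br_smul_right, br_smul_right, hx, fm_smul_right, smul_smul]
    congr 1
    ring
  · intro β hβ
    rw [br_E_E C hα hβ, fm_E_E C hα hβ]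
    by_cases h : β = -α
    · subst h
      rw [if_pos rfl, if_pos rfl, INV_E00 C hα, smul_zero, zero_sub, br_neg_right]
      unfold ht
      rw [br_E_H C hα, ev_coroot, hα]
      simp
    · rw [if_neg h, if_neg h, sub_zero, br_smul_right]
      by_cases h1 : ip C α β = -1
      · have hab : ip C (α + β) (α + β) = 2 := (add_root_iff hα hβ).2 h1
        rw [INV_br0 C hα hab (by rw [ip_add_right, hα, h1]; norm_num)]
        simp
      · rw [INV_E0 C hα hβ h1]
        simp
  · intro h
    rw [br_E_H C hα, br_smul_right, INV_aa C hα, fm_E_H C hα]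
    simp

end

theorem INV : INV_stmt := by
  intro n C _ F _
  refine ⟨fun α hα v w => INV_inv C hα v w, fun α hα v => INV_sq C hα v, fun v w => INV_symm C v w,
    fun v w => INV_anti C v w, fun α hα => ⟨INV_aa C hα, ?_⟩⟩
  rw [fm_E_E C hα hα, if_neg]
  intro e
  have h : ip C α α = -ip C α α := by
    have h1 := ip_neg_right C α α
    rw [← e] at h1
    exact h1
  omega

end Pool.Agent.EXC
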