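import Pool.Agent.helper32.EXC.Spec11

/-!
# Row `en11:XGS` (MP_561ff4_al)

The chosen root elements.
-/

set_option autoImplicit false

open Finset

namespace Pool.Agent.EXC

theorem T11XGS_uniq {n : ℕ} (C : Matrix (Fin n) (Fin n) ℤ) [IsC C] {F : Type} [Field F] {a : Lm C F} {t : F}
    {g h : Lm C F ≃ₗ[F] Lm C F} (hg : IsX C a t g) (hh : IsX C a t h) : g = h := by
  apply LinearEquiv.ext
  intro v
  rw [hg v, hh v]

theorem T11XGS (hEXF : EXF_stmt) (hXAU : XAU_stmt) : T11XGS_stmt := by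
  intro n C _ F _ hβ α hα t
  obtain ⟨_, h1, hEx, _⟩ := hEXF n C F hβ
  obtain ⟨hX, _, _, _, hex, hmem, _, _, hadd⟩ := hEx (E C α) (h1 α hα)
  have key : ∀ s : F, IsX C (E C α) s (XG C α s) := by
    intro s
    obtain ⟨h, _, hh⟩ := hex s
    have hx : ∃ g : Lm C F ≃ₗ[F] Lm C F, IsX C (E C α) s g := ⟨h, hh⟩
    unfold XG
    rw [dif_pos hx]
    exact hx.choose_spec
  refine ⟨key t, hmem _ ⟨t, key t⟩, ?_⟩
  apply inv_eq_of_mul_eq_one_right
  have h2 := hadd t (-t) _ _ (key t) (key (-t))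
  apply T11XGS_uniq C h2
  intro v
  rw [add_neg_cancel]
  simp [xe]

end Pool.Agent.EXC
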